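import Mathlib
import Pool.Agent.MP_bfac72_an.Defs
import Pool.Agent.MP_bfac72_an.Proof

/-!
A weakly mixing (hence transitive and thickly sensitive) system that is not
filter-sensitive, for any compatible metric.
-/

namespace Pool.Agent.Results.MP_bfac72_an.WeakMixNotFilter

open Pool.Agent.MP_bfac72_an TopologicalSpace

/-- **Theorem.** There is a compact metrizable space `X` with more than one point and a continuous
surjection `T : X → X` which is weakly mixing and transitive, such that for every metric on `X`
inducing the topology the system is thickly sensitive but not filter-sensitive. -/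
theorem result : ∃ (X : Type) (τ : TopologicalSpace X) (T : X → X),
    CompactSpace X ∧ MetrizableSpace X ∧ Nontrivial X ∧ Continuous T ∧ Function.Surjective T ∧
    IsWeaklyMixing T ∧ IsTransitiveSystem T ∧
    ∀ m : MetricSpace X, m.toPseudoMetricSpace.toUniformSpace.toTopologicalSpace = τ →
      @IsThicklySensitive X m T ∧ ¬ @IsFilterSensitive X m T :=
  ⟨XX, inferInstance, shift, inferInstance, inferInstance, inferInstance, continuous_shift,
    surjective_shift, weaklyMixing_shift, transitive_shift, fun m hm =>
      ⟨thicklySensitive_shift m hm, not_filterSensitive_shift m hm⟩⟩

end Pool.Agent.Results.MP_bfac72_an.WeakMixNotFilter
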